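import Pool.Agent.Y738.PE.Stm3

/-! # E7c. Norms of the parametrization -/

set_option autoImplicit false

open scoped BigOperators ComplexConjugate Classical Topology

noncomputable section

namespace Pool.Agent.Y236.PE

open Pool.Agent.Y738.PE

theorem abs_entry {S : Type} [Fintype S] (X : S → S → ℝ) (s t : S) : |X s t| ≤ ‖X‖ := by
  have h1 : ‖X s t‖ ≤ ‖X s‖ := norm_le_pi_norm (X s) t
  have h2 : ‖X s‖ ≤ ‖X‖ := norm_le_pi_norm X s
  rw [Real.norm_eq_abs] at h1
  exact h1.trans h2

theorem herm_entry {d q : ℕ} (X : BConf d q → BConf d q → ℝ) (s t : BConf d q) :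
    ‖hermOf X s t‖ ≤ 4 * ‖X‖ := by
  unfold hermOf
  refine (norm_add_le _ _).trans ?_
  rw [norm_mul, Complex.norm_I, mul_one, Complex.norm_real, Complex.norm_real, Real.norm_eq_abs,
    Real.norm_eq_abs]
  have h1 := abs_entry X s t
  have h2 := abs_entry X t s
  have h3 := abs_add_le (X s t) (X t s)
  have h4 := abs_sub (X s t) (X t s)
  linarith

theorem contr_entry {S : Type} [Fintype S] {B : S → S → ℂ} (hB : Contr B) (s t : S) :
    ‖B s t‖ ≤ 1 := by
  have h := hB (fun τ => if τ = t then 1 else 0)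
  unfold nrm at h
  have e1 : ∀ σ, ∑ τ, B σ τ * (if τ = t then (1 : ℂ) else 0) = B σ t := by
    intro σ
    rw [Finset.sum_eq_single t]
    · rw [if_pos rfl, mul_one]
    · intro b _ hb
      rw [if_neg hb, mul_zero]
    · intro hn
      exact absurd (Finset.mem_univ t) hn
  have e2 : ∑ τ, ‖(if τ = t then (1 : ℂ) else 0)‖ ^ 2 = 1 := by
    rw [Finset.sum_eq_single t]
    · rw [if_pos rfl, norm_one, one_pow]
    · intro b _ hb
      rw [if_neg hb, norm_zero]
      norm_num
    · intro hn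
      exact absurd (Finset.mem_univ t) hn
  rw [e2] at h
  have e3 : ∑ σ, ‖∑ τ, B σ τ * (if τ = t then (1 : ℂ) else 0)‖ ^ 2 = ∑ σ, ‖B σ t‖ ^ 2 :=
    Finset.sum_congr rfl fun σ _ => by rw [e1 σ]
  rw [e3] at h
  have h2 : ‖B s t‖ ^ 2 ≤ ∑ σ, ‖B σ t‖ ^ 2 :=
    Finset.single_le_sum (f := fun σ => ‖B σ t‖ ^ 2) (fun i _ => by positivity)
      (Finset.mem_univ s)
  have h3 : ‖B s t‖ ^ 2 ≤ 1 := h2.trans h
  have h4 := norm_nonneg (B s t)
  nlinarith

theorem energyC : Pool.Agent.Y738.PE.StmEnergyC := by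
  refine ⟨?_, ?_⟩
  · intro d q X
    unfold entrySum
    have h1 : ∑ σ, ∑ τ, ‖hermOf X σ τ‖ ≤ ∑ _σ : BConf d q, ∑ _τ : BConf d q, 4 * ‖X‖ :=
      Finset.sum_le_sum fun σ _ => Finset.sum_le_sum fun τ _ => herm_entry X σ τ
    refine h1.trans (le_of_eq ?_)
    rw [Finset.sum_const, Finset.sum_const, Finset.card_univ, nsmul_eq_mul, nsmul_eq_mul]
    ring
  · intro d q B hB
    have hre : ∀ s t, |(B s t).re| ≤ 1 := fun s t =>
      (Complex.abs_re_le_norm _).trans (contr_entry hB s t)
    have him : ∀ s t, |(B s t).im| ≤ 1 := fun s t =>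
      (Complex.abs_im_le_norm _).trans (contr_entry hB s t)
    refine ⟨fun σ τ => ((B σ τ).re + (B τ σ).re + (B σ τ).im - (B τ σ).im) / 4,
      fun σ τ => ((B σ τ).im + (B τ σ).im + (B τ σ).re - (B σ τ).re) / 4, ?_, ?_, ?_⟩
    · rw [pi_norm_le_iff_of_nonneg zero_le_one]
      intro σ
      rw [pi_norm_le_iff_of_nonneg zero_le_one]
      intro τ
      rw [Real.norm_eq_abs, abs_le]
      have h1 := abs_le.1 (hre σ τ)
      have h2 := abs_le.1 (hre τ σ)
      have h3 := abs_le.1 (him σ τ)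
      have h4 := abs_le.1 (him τ σ)
      constructor <;> linarith
    · rw [pi_norm_le_iff_of_nonneg zero_le_one]
      intro σ
      rw [pi_norm_le_iff_of_nonneg zero_le_one]
      intro τ
      rw [Real.norm_eq_abs, abs_le]
      have h1 := abs_le.1 (hre σ τ)
      have h2 := abs_le.1 (hre τ σ)
      have h3 := abs_le.1 (him σ τ)
      have h4 := abs_le.1 (him τ σ)
      constructor <;> linarith
    · intro σ τ
      unfold hermOf
      apply Complex.ext
      · simp only [Complex.add_re, Complex.mul_re, Complex.ofReal_re, Complex.ofReal_im,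
          Complex.I_re, Complex.I_im, Complex.add_im, Complex.mul_im]
        ring
      · simp only [Complex.add_re, Complex.mul_re, Complex.ofReal_re, Complex.ofReal_im,
          Complex.I_re, Complex.I_im, Complex.add_im, Complex.mul_im]
        ring

end Pool.Agent.Y236.PE
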